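import Pool.Agent.N646.RW.Eq
import Pool.Agent.N646.BX.All

/-!
Project RW: all boxes contain a proportion of patterns of clusters in record windows.
-/

set_option autoImplicit false

namespace Pool.Agent.N646.RW

open Finset Filter
open Pool.Agent.H312R2.RG (ev_ff)
open Pool.Agent.H256R2.SC (ff)
open Pool.Agent.N646.AC
open Pool.Agent.N688.FB
open Pool.Agent.N646.BX

/-- for arbitrarily large `X` the vector `h` is the pattern of at least `X ^ (6 / 7)` clusters -/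
def RecGood (k : ℕ) (c : ℝ) (K q b : ℕ) (h : Fin k → ℤ) : Prop :=
  ∃ᶠ X : ℝ in atTop, Function.Injective (nv h) ∧
    X ^ (6 / 7 : ℝ) ≤ clu (c * ff X) X 4 1 K q b (Set.range (nv h))

theorem freqR {β : Type} (s : Finset β) (Q : β → ℝ → Prop)
    (h : ∀ᶠ N : ℝ in atTop, ∃ p ∈ s, Q p N) : ∃ p ∈ s, ∃ᶠ N : ℝ in atTop, Q p N := by
  by_contra hcon
  push Not at hcon
  have h1 : ∀ᶠ N : ℝ in atTop, ∀ p ∈ s, ¬ Q p N := by
    rw [Filter.eventually_all_finset]
    intro p hp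
    exact hcon p hp
  obtain ⟨N, ⟨p, hp, hQ⟩, hN⟩ := (h.and h1).exists
  exact hN p hp hQ

open Classical in
theorem rec_cle : ∃ lam : ℝ, 1 ≤ lam ∧ ∀ q : ℕ, Squarefree q → ∀ k b : ℕ, b.Coprime q → ∀ ε : ℝ, 0 < ε →
    ∃ (K : ℕ) (c : ℝ), 0 < c ∧ CLe k (RecGood k c K q b) (1 / lam) ε := by
  obtain ⟨lam, hlam, hh⟩ := hit_sets
  have hlam0 : 0 < lam := by linarith
  refine ⟨lam, hlam, fun q hq k b hb ε hε => ?_⟩
  obtain ⟨Kf, hh⟩ := hh q hq
  obtain ⟨M₁, n₀, hcl⟩ := wclique hlam k ε hε 1 le_rfl Kf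
  obtain ⟨M, K, hM, hqM, c, hc, hev⟩ := hh M₁
  have hMZ : (0 : ℤ) < M := by exact_mod_cast hM
  have hMR : (0 : ℝ) < M := by exact_mod_cast hM
  refine ⟨K, c, hc, M, max n₀ 1, hM, ?_⟩
  intro V hV hn
  have hn0 : n₀ ≤ V.card := (le_max_left _ _).trans hn
  have hn1 : V.Nonempty := card_pos.1 (lt_of_lt_of_le one_pos ((le_max_right _ _).trans hn))
  set v₀ : ℤ := V.min' hn1 with hv₀
  have hv₀V : v₀ ∈ V := min'_mem _ _
  set e : ℤ → ℤ := fun v => (v - v₀) / M with he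
  have hMe : ∀ v ∈ V, (M : ℤ) * e v = v - v₀ := by
    intro v hv
    exact Int.mul_ediv_cancel' (dvd_sub (hV v hv) (hV v₀ hv₀V))
  have he0 : ∀ v ∈ V, 0 ≤ e v := by
    intro v hv
    have h1 := V.min'_le v hv
    exact Int.ediv_nonneg (by linarith) hMZ.le
  have heinj : Set.InjOn e (V : Set ℤ) := by
    intro v hv w hw h1
    have h2 := hMe v hv
    have h3 := hMe w hw
    rw [h1, h3] at h2
    linarith
  set V' : Finset ℤ := V.image e with hV'
  have hV'c : V'.card = V.card := card_image_of_injOn heinj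
  have hevX : ∀ᶠ X : ℝ in atTop, ∀ v ∈ V, (M : ℝ) * (e v : ℤ) ≤ c * ff X := by
    rw [Filter.eventually_all_finset]
    intro v _
    exact (Pool.Agent.H312R2.RG.C3.ff_tendsto.const_mul_atTop hc).eventually_ge_atTop _
  set Q : (Finset ℤ × Finset (Fin (k + 1) → ℤ)) → ℝ → Prop := fun p X =>
    (1 / lam - ε) * (V.card : ℝ) ≤ p.1.card ∧ ((p.2.card : ℕ) : ℝ) ≤ ε * (V.card : ℝ) ^ (k + 1) ∧
      ∀ y : Fin (k + 1) → ℤ, (∀ i, y i ∈ p.1) → Function.Injective y → y ∉ p.2 →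
        Function.Injective (nv (fun j : Fin k => y j.succ - y 0)) ∧
        X ^ (6 / 7 : ℝ) ≤ clu (c * ff X) X 4 1 K q b (Set.range (nv (fun j : Fin k => y j.succ - y 0)))
    with hQ
  have hall : ∀ᶠ X : ℝ in atTop, ∃ p ∈ V.powerset ×ˢ
      (Fintype.piFinset (fun _ : Fin (k + 1) => V)).powerset, Q p X := by
    filter_upwards [hev b hb, ev_ff c hc, hevX, eventually_ge_atTop 0] with X hX hff hbd hX0
    have hff0 : 0 ≤ c * ff X := mul_nonneg hc.le hff.2.1
    obtain ⟨A, hA1, hA2, hA3⟩ := hcl ℤ V'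
      (fun F => X ^ (6 / 7 : ℝ) ≤ clu (2 * (c * ff X)) X 3 M K q b (F : Set ℤ))
      (by rw [hV'c]; exact hn0)
      (fun F F' hFF h => h.trans (by
        rw [Nat.cast_le]
        exact clu_mono (by exact_mod_cast hFF)))
      (hX V' (by
        intro v hv
        obtain ⟨w, hw, rfl⟩ := mem_image.1 hv
        exact ⟨he0 w hw, hbd w hw⟩)) (fun _ => 1) (fun _ _ => ⟨le_rfl, le_rfl⟩)
    simp only [sum_const, smul_eq_mul, mul_one] at hA2
    rw [hV'c] at hA2 hA3
    refine ⟨(V.filter (fun v => e v ∈ A), (Fintype.piFinset (fun _ : Fin (k + 1) => V)).filter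
      (fun y => (fun i => e (y i)) ∈ badT k A (fun F => X ^ (6 / 7 : ℝ) ≤
        clu (2 * (c * ff X)) X 3 M K q b (F : Set ℤ)))), ?_, ?_, ?_, ?_⟩
    · rw [mem_product, mem_powerset, mem_powerset]
      exact ⟨filter_subset _ _, filter_subset _ _⟩
    · have h1 : (V.filter (fun v => e v ∈ A)).image e = A := by
        ext t
        rw [mem_image]
        constructor
        · rintro ⟨v, hv, rfl⟩
          exact (mem_filter.1 hv).2
        · intro ht
          obtain ⟨v, hv, rfl⟩ := mem_image.1 (hA1 ht)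
          exact ⟨v, mem_filter.2 ⟨hv, ht⟩, rfl⟩
      have h2 : A.card = (V.filter (fun v => e v ∈ A)).card := by
        conv_lhs => rw [← h1]
        exact card_image_of_injOn (heinj.mono (by
          intro v hv
          exact (mem_filter.1 hv).1))
      rw [h2] at hA2
      exact hA2
    · refine le_trans ?_ hA3.le
      rw [Nat.cast_le]
      apply card_le_card_of_injOn (fun y i => e (y i))
      · intro y hy
        rw [mem_coe, mem_filter] at hy
        exact hy.2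
      · intro y hy z hz h
        rw [mem_coe, mem_filter, Fintype.mem_piFinset] at hy hz
        funext i
        exact heinj (hy.1 i) (hz.1 i) (congrFun h i)
    · intro y hy1 hy2 hy3
      have hyV : ∀ i, y i ∈ V := fun i => (mem_filter.1 (hy1 i)).1
      have hG : X ^ (6 / 7 : ℝ) ≤ clu (2 * (c * ff X)) X 3 M K q b
          ((univ.image (fun i => e (y i)) : Finset ℤ) : Set ℤ) := by
        by_contra hG
        apply hy3
        rw [mem_filter, Fintype.mem_piFinset]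
        refine ⟨hyV, ?_⟩
        rw [mem_badT]
        exact ⟨fun i => (mem_filter.1 (hy1 i)).2, fun i j hij => hy2 (heinj (hyV i) (hyV j) hij), hG⟩
      rw [nv_diff]
      refine ⟨fun i j hij => hy2 (by
        have : y i - y 0 = y j - y 0 := hij
        linarith), hG.trans ?_⟩
      rw [Nat.cast_le]
      refine (clu_shift (e (y 0)) (he0 _ (hyV 0)) (hbd _ (hyV 0)) (by linarith [hff.2.2]) hqM hX0).trans ?_
      unfold clu
      apply Set.ncard_le_ncard _ (clu_finite _ _ _ _ _ _ _ _)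
      rintro n ⟨h1, h2, h3, h4, h5⟩
      refine ⟨h1, h2, h3, ?_, h5⟩
      rintro _ ⟨i, rfl⟩
      have h6 := h4 (e (y i) - e (y 0)) ⟨e (y i), by simp, rfl⟩
      have h7 : (M : ℤ) * (e (y i) - e (y 0)) = y i - y 0 := by
        rw [mul_sub, hMe _ (hyV i), hMe _ (hyV 0)]
        ring
      rw [h7] at h6
      rw [Nat.cast_one, one_mul]
      exact h6
  obtain ⟨p, hp, hfr⟩ := freqR _ Q hall
  rw [mem_product, mem_powerset, mem_powerset] at hp
  obtain ⟨X, hX1, hX2, -⟩ := hfr.exists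
  refine ⟨p.1, hp.1, hX1, ?_⟩
  refine le_trans ?_ hX2
  rw [Nat.cast_le, ← Set.ncard_coe_finset]
  apply Set.ncard_le_ncard _ (Set.toFinite _)
  rintro y ⟨hy1, hy2, hy3⟩
  by_contra hy4
  apply hy3
  exact hfr.mono fun X hX => hX.2.2 y hy1 hy2 (fun h => hy4 (mem_coe.2 h))

/-- **every box contains a proportion of patterns of clusters in record windows** -/
theorem rec_boxes : ∃ ρ : ℝ, 0 < ρ ∧ ∀ k q b : ℕ, 1 ≤ k → Squarefree q → b.Coprime q → ∀ ε : ℝ, 0 < ε →
    ∃ (M K : ℕ) (c : ℝ), 1 ≤ M ∧ 0 < c ∧ ∀ N : ℕ, 1 ≤ N → M ∣ N → ∃ L : ℕ, ∀ T : ℕ, L ≤ T →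
      ∀ z : Fin k → ℤ, (∀ j, (M : ℤ) ∣ z j) →
        ((k + 1) * ρ ^ k - ε) * (T : ℝ) ^ k ≤ (cnt (RecGood k c K q b) z N T : ℝ) := by
  obtain ⟨lam, hlam, h⟩ := rec_cle
  have hlam0 : 0 < lam := by linarith
  refine ⟨1 / (2 * lam), by positivity, fun k q b hk hq hb ε hε => ?_⟩
  obtain ⟨ε', hε', hbox⟩ := box_main k hk (1 / (2 * lam)) (by positivity) (by
    rw [div_le_div_iff₀ (by positivity) (by norm_num)]
    linarith) ε hε
  obtain ⟨K, c, hc, hcle⟩ := h q hq k b hb ε' hε'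
  have hcle' : CLe k (RecGood k c K q b) (1 / (2 * lam)) ε' := by
    obtain ⟨M₀, n₀, hM₀, h1⟩ := hcle
    refine ⟨M₀, n₀, hM₀, fun V hV hn => ?_⟩
    obtain ⟨A, hA, h2, h3⟩ := h1 V hV hn
    refine ⟨A, hA, le_trans ?_ h2, h3⟩
    apply mul_le_mul_of_nonneg_right _ (Nat.cast_nonneg _)
    have : 1 / (2 * lam) ≤ 1 / lam := by
      apply div_le_div_of_nonneg_left zero_le_one hlam0
      linarith
    linarith
  obtain ⟨M, hM, hM'⟩ := hbox _ hcle'
  exact ⟨M, K, c, hM, hc, hM'⟩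

end Pool.Agent.N646.RW
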