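import Pool.Agent.N646.RW.Hit
import Pool.Agent.N646.AC.Cov
import Pool.Agent.H312R2.RG.C3a

/-!
Project RW: almost cliques and almost clique covers in record windows.
-/

set_option autoImplicit false

namespace Pool.Agent.N646.RW

open Finset Filter
open Pool.Agent.H312R2.RG (ev_ff)
open Pool.Agent.H256R2.SC (ff)
open Pool.Agent.N646.AC
open Pool.Agent.N688.FB

theorem clu_anti {G G' X B : ℝ} {M K q a : ℕ} {S : Set ℤ} (h : G' ≤ G) :
    clu G X B M K q a S ≤ clu G' X B M K q a S := by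
  unfold clu
  apply Set.ncard_le_ncard _ (clu_finite G' X B M K q a S)
  rintro n ⟨h1, h2, h3, h4, h5⟩
  refine ⟨h1, h2, h3, h4, le_trans (Set.ncard_le_ncard ?_ ?_) h5⟩
  · rintro p ⟨hp1, hp2⟩
    exact ⟨hp1, hp2.trans h⟩
  · apply (Set.finite_Iic ⌊(n : ℝ) + G⌋₊).subset
    rintro p ⟨_, hp2⟩
    rw [abs_le] at hp2
    exact Set.mem_Iic.2 (Nat.le_floor (by linarith [hp2.2]))

theorem hit_mono {lam : ℝ} {α : Type} [DecidableEq α] {Kf : ℕ → ℕ} {M : ℕ} {V V' : Finset α}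
    {G G' : Finset α → Prop} (hV : V' ⊆ V) (hG : ∀ F, G F → G' F) (h : Hit lam Kf M V G) :
    Hit lam Kf M V' G' := by
  intro T' h1 h2 H h3 h4
  obtain ⟨S, c, h5, h6⟩ := h T' h1 h2 H (fun g i => hV (h3 g i)) h4
  exact ⟨S, c, h5, hG _ h6⟩

open Classical in
/-- the hitting property on arbitrary sets -/
theorem hit_sets : ∃ lam : ℝ, 1 ≤ lam ∧ ∀ q : ℕ, Squarefree q → ∃ Kf : ℕ → ℕ, ∀ M₁ : ℕ,
    ∃ M K : ℕ, 1 ≤ M ∧ q ∣ M ∧ ∃ c : ℝ, 0 < c ∧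
    ∀ a : ℕ, a.Coprime q → ∀ᶠ X : ℝ in atTop, ∀ V : Finset ℤ,
      (∀ v ∈ V, 0 ≤ v ∧ (M : ℝ) * v ≤ c * ff X) →
      Hit lam Kf M₁ V
        (fun F => X ^ (6 / 7 : ℝ) ≤ clu (2 * (c * ff X)) X 3 M K q a (F : Set ℤ)) := by
  obtain ⟨lam, hlam, h⟩ := rec_hitA
  refine ⟨lam, hlam, fun q hq => ?_⟩
  obtain ⟨Kf, h⟩ := h q hq
  refine ⟨Kf, fun M₁ => ?_⟩
  obtain ⟨M, K, hM, hqM, c, hc, h⟩ := h M₁
  refine ⟨M, K, hM, hqM, c / 2, by positivity, fun a ha => ?_⟩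
  have hM0 : (0 : ℝ) < M := by exact_mod_cast hM
  have hbig : ∀ᶠ X : ℝ in atTop, 2 * (M : ℝ) ≤ c * ff X :=
    (Pool.Agent.H312R2.RG.C3.ff_tendsto.const_mul_atTop hc).eventually_ge_atTop _
  filter_upwards [h a ha, ev_ff c hc, hbig] with X hX hff hXb
  intro V hV
  have hf0 : 0 ≤ c * ff X := mul_nonneg hc.le hff.2.1
  set H : ℕ := ⌊c * ff X / M⌋₊ with hH
  have hH1 : (M : ℝ) * H ≤ c * ff X := by
    have h1 : (H : ℝ) ≤ c * ff X / M := Nat.floor_le (by positivity)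
    calc (M : ℝ) * H ≤ M * (c * ff X / M) := mul_le_mul_of_nonneg_left h1 hM0.le
      _ = c * ff X := by field_simp
  refine hit_mono ?_ ?_ (hX H hH1)
  · intro v hv
    obtain ⟨h1, h2⟩ := hV v hv
    rw [mem_Ico]
    refine ⟨h1, ?_⟩
    have h3 : ((v.toNat : ℕ) : ℤ) = v := Int.toNat_of_nonneg h1
    have h4 : ((v.toNat : ℕ) : ℝ) = v := by exact_mod_cast congrArg (Int.cast : ℤ → ℝ) h3
    have h5 : v.toNat + 1 ≤ H := by
      apply Nat.le_floor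
      rw [le_div_iff₀ hM0]
      push_cast
      rw [h4]
      linarith
    omega
  · intro F hF
    refine hF.trans ?_
    rw [Nat.cast_le]
    apply clu_anti
    linarith

end Pool.Agent.N646.RW
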