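import Pool.Agent.N646.RW.Cov
import Pool.Agent.N646.SF.All

/-!
Project RW: linear equations in clusters of record windows.
-/

set_option autoImplicit false

namespace Pool.Agent.N646.RW

open Finset Filter
open Pool.Agent.H312R2.RG (ev_ff)
open Pool.Agent.H256R2.SC (ff)
open Pool.Agent.N646.AC
open Pool.Agent.N688.FB
open Pool.Agent.N646.SF

theorem nv_diff {k : ℕ} (y : Fin (k + 1) → ℤ) : nv (fun j : Fin k => y j.succ - y 0) = fun i => y i - y 0 := by
  funext i
  unfold nv
  refine Fin.cases ?_ (fun j => ?_) i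
  · rw [Fin.cons_zero, sub_self]
  · rw [Fin.cons_succ]

/-- `M h` is the pattern of many clusters -/
def FreqM (G X : ℝ) (M K q b : ℕ) {k : ℕ} (h : Fin k → ℤ) : Prop :=
  Function.Injective (nv h) ∧ X ^ (6 / 7 : ℝ) ≤ (clu G X 4 M K q b (Set.range (nv h)) : ℝ)

open Classical in
/-- linear equations in the vectors of differences of clusters (scaled by `M`) -/
theorem rw_equations : ∃ p₀ : ℕ, 2 ≤ p₀ ∧ ∀ k p q : ℕ, Squarefree q → p₀ ≤ p → ∀ a : Fin p → ℤ,
    (∀ i, a i ≠ 0) → ∃ (N B K : ℕ) (c δ : ℝ), 1 ≤ N ∧ 1 ≤ B ∧ 0 < c ∧ 0 < δ ∧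
    ∀ b : ℕ, b.Coprime q → ∀ᶠ X : ℝ in atTop, ∀ T : ℕ, B ≤ T → (T : ℝ) ≤ c * ff X →
      ∀ v : Fin k → ℤ, (∀ j, (N : ℤ) ∣ v j) → (∀ j, B * |v j| ≤ T) →
        δ * (T : ℝ) ^ ((p - 1) * k) ≤
          (((Fintype.piFinset (fun _ : Fin p => Fintype.piFinset (fun _ : Fin k =>
            Ioo (-(T : ℤ)) T))).filter
              (fun h => (∀ i, FreqM (c * ff X) X 1 K q b (h i)) ∧
                ∀ j, ∑ i, a i * h i j = v j)).card : ℝ) := by
  obtain ⟨lam, hlam, hh⟩ := hit_sets
  have hlam0 : 0 < lam := by linarith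
  refine ⟨max 2 ⌈lam⌉₊, le_max_left _ _, fun k p q hq hp₀ a ha => ?_⟩
  have hp : 2 ≤ p := (le_max_left _ _).trans hp₀
  have hpl : lam ≤ p := by
    have h1 : ⌈lam⌉₊ ≤ p := (le_max_right _ _).trans hp₀
    exact (Nat.le_ceil lam).trans (by exact_mod_cast h1)
  have hρ1 : 1 / lam ≤ 1 := by rw [div_le_one hlam0]; exact hlam
  have hk' : ((k : ℝ) + 1) * (1 - min 1 ((p : ℝ) * (1 / lam))) < 1 := by
    have h1 : 1 ≤ (p : ℝ) * (1 / lam) := by
      rw [mul_one_div, le_div_iff₀ hlam0]
      linarith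
    rw [min_eq_left h1]
    norm_num
  obtain ⟨ε, hε, Q, B₁, hQ, hB₁, c₁, hc₁, h⟩ :=
    sfgT k p (1 / lam) a ha hp (by positivity) hρ1 hk'
  obtain ⟨Kf, hh⟩ := hh q hq
  obtain ⟨M₁, n₀, hcl⟩ := wclique hlam k ε hε 1 le_rfl Kf
  obtain ⟨M, K, hM, hqM, c, hc, hev⟩ := hh M₁
  have hMZ : (0 : ℤ) < M := by exact_mod_cast hM
  have hMR : (0 : ℝ) < M := by exact_mod_cast hM
  refine ⟨Q * M, 2 * M * (B₁ + n₀ + 1), K, c, c₁ / (2 * M) ^ ((p - 1) * k), Nat.mul_pos hQ hM,
    Nat.mul_pos (by omega) (by omega), hc, by positivity, fun b hb => ?_⟩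
  filter_upwards [hev b hb, ev_ff c hc, eventually_ge_atTop 1] with X hX hff hX1
  intro T hT hTx v hv1 hv2
  set B : ℕ := 2 * M * (B₁ + n₀ + 1) with hB
  have hB2 : 2 * M * B₁ ≤ B := by rw [hB]; exact Nat.mul_le_mul_left _ (by omega)
  have hB3 : M * (B₁ + n₀ + 1) ≤ B := by rw [hB]; exact Nat.mul_le_mul_right _ (by omega)
  set S : ℕ := T / M with hS
  have hS1 : M * S ≤ T := Nat.mul_div_le T M
  have hS2 : T < M * (S + 1) := Nat.lt_mul_div_succ T hM
  have hS3 : B₁ + n₀ + 1 ≤ S := by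
    rw [hS, Nat.le_div_iff_mul_le hM, mul_comm]
    exact hB3.trans hT
  have hS4 : T ≤ 2 * M * S := by nlinarith
  have hS1R : (M : ℝ) * S ≤ c * ff X := by
    have h1 : (M : ℝ) * S ≤ T := by exact_mod_cast hS1
    linarith
  have hVc : (Ico 0 (S : ℤ)).card = S := by rw [Int.card_Ico, sub_zero, Int.toNat_natCast]
  obtain ⟨A, hA1, hA2, hA3⟩ := hcl ℤ (Ico 0 (S : ℤ))
    (fun F => X ^ (6 / 7 : ℝ) ≤ clu (2 * (c * ff X)) X 3 M K q b (F : Set ℤ))
    (by rw [hVc]; omega)
    (fun F F' hFF h => h.trans (by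
      rw [Nat.cast_le]
      exact clu_mono (by exact_mod_cast hFF)))
    (hX (Ico 0 (S : ℤ)) (by
      intro v hv
      have h1 := mem_Ico.1 hv
      refine ⟨h1.1, ?_⟩
      have h2 : ((v : ℤ) : ℝ) ≤ S := by exact_mod_cast h1.2.le
      exact (mul_le_mul_of_nonneg_left h2 hMR.le).trans hS1R)) (fun _ => 1)
    (fun _ _ => ⟨le_rfl, le_rfl⟩)
  simp only [sum_const, smul_eq_mul, mul_one] at hA2
  rw [hVc] at hA2 hA3
  have hvM : ∀ j, (M : ℤ) * (v j / M) = v j := fun j =>
    Int.mul_ediv_cancel' (dvd_trans ⟨(Q : ℤ), by push_cast; ring⟩ (hv1 j))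
  have hff0 : 0 ≤ c * ff X := mul_nonneg hc.le hff.2.1
  have hmain := h S (by omega) A hA1 hA2 (fun h => FreqM (c * ff X) X M K q b h) (by
      refine le_trans ?_ hA3.le
      rw [Nat.cast_le]
      apply card_le_card
      intro t ht
      rw [mem_filter, Fintype.mem_piFinset] at ht
      rw [mem_badT]
      refine ⟨ht.1, ht.2.1, fun hG => ht.2.2 ?_⟩
      unfold FreqM
      rw [nv_diff]
      refine ⟨fun i j hij => ht.2.1 (by
        have : t i - t 0 = t j - t 0 := hij
        linarith), hG.trans ?_⟩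
      rw [Nat.cast_le]
      have h6 := mem_Ico.1 (hA1 (ht.1 0))
      refine (clu_shift (t 0) h6.1 ?_ ?_ hqM (by linarith)).trans ?_
      · refine le_trans ?_ hS1R
        have h7 : ((t 0 : ℤ) : ℝ) ≤ S := by exact_mod_cast h6.2.le
        exact mul_le_mul_of_nonneg_left h7 (Nat.cast_nonneg _)
      · have := hff.2.2
        linarith
      · apply clu_mono
        rintro _ ⟨i, rfl⟩
        exact ⟨t i, by simp, rfl⟩)
    (fun j => v j / M) (by
      intro j
      obtain ⟨y, hy⟩ := hv1 j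
      refine ⟨y, ?_⟩
      have h1 := hvM j
      rw [hy] at h1 ⊢
      push_cast at h1 ⊢
      have h2 : (M : ℤ) * ((Q : ℤ) * M * y / M) = M * (Q * y) := by rw [h1]; ring
      exact mul_left_cancel₀ hMZ.ne' h2) (by
      intro j
      have h1 : (B : ℤ) * |v j| ≤ T := hv2 j
      have h2 : |v j| = M * |v j / M| := by
        conv_lhs => rw [← hvM j]
        rw [abs_mul, abs_of_pos hMZ]
      have h3 : ((2 * M * B₁ : ℕ) : ℤ) * |v j| ≤ B * |v j| :=
        mul_le_mul_of_nonneg_right (by exact_mod_cast hB2) (abs_nonneg _)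
      have h4 : (T : ℤ) ≤ 2 * M * S := by exact_mod_cast hS4
      push_cast at h3
      rw [h2] at h3
      have h5 : (2 * (M : ℤ) * M) * (B₁ * |v j / M|) ≤ (2 * M * M) * S := by
        have h6 : (1 : ℤ) ≤ M := hMZ
        have h7 : (2 * (M : ℤ) * M) * (B₁ * |v j / M|) ≤ T := by
          calc (2 * (M : ℤ) * M) * (B₁ * |v j / M|) = 2 * M * B₁ * (M * |v j / M|) := by ring
            _ ≤ B * (M * |v j / M|) := h3
            _ = B * |v j| := by rw [h2]
            _ ≤ T := h1
        have h8 : (2 : ℤ) * M * S ≤ 2 * M * M * S := by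
          have h9 : (0 : ℤ) ≤ 2 * M * S := by positivity
          nlinarith
        linarith
      exact le_of_mul_le_mul_left h5 (by positivity))
  have hTR : (T : ℝ) ≤ 2 * M * S := by exact_mod_cast hS4
  calc c₁ / (2 * M) ^ ((p - 1) * k) * (T : ℝ) ^ ((p - 1) * k)
      ≤ c₁ / (2 * M) ^ ((p - 1) * k) * (2 * M * S) ^ ((p - 1) * k) := by
        apply mul_le_mul_of_nonneg_left _ (by positivity)
        exact pow_le_pow_left₀ (Nat.cast_nonneg _) hTR _
    _ = c₁ * (S : ℝ) ^ ((p - 1) * k) := by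
        rw [mul_pow (2 * (M : ℝ)) (S : ℝ)]
        field_simp
    _ ≤ _ := hmain
    _ ≤ _ := by
        rw [Nat.cast_le]
        apply card_le_card_of_injOn (fun h i j => (M : ℤ) * h i j)
        · intro h hh
          rw [mem_coe, mem_filter, Fintype.mem_piFinset] at hh ⊢
          have hnv : ∀ i, nv (fun j => (M : ℤ) * h i j) = fun j => (M : ℤ) * nv (h i) j := by
            intro i
            funext j
            unfold nv
            refine Fin.cases ?_ (fun j' => ?_) j
            · rw [Fin.cons_zero, Fin.cons_zero, mul_zero]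
            · rw [Fin.cons_succ, Fin.cons_succ]
          refine ⟨fun i => ?_, fun i => (show _ ∧ _ from ⟨?_, ?_⟩), fun j => ?_⟩
          · rw [Fintype.mem_piFinset]
            intro j
            have h1 := hh.1 i
            rw [Fintype.mem_piFinset] at h1
            have h2 := mem_Ioo.1 (h1 j)
            have h3 : (M : ℤ) * S ≤ T := by exact_mod_cast hS1
            rw [mem_Ioo]
            constructor
            · have : (M : ℤ) * (-(S : ℤ)) < M * h i j := mul_lt_mul_of_pos_left h2.1 hMZ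
              linarith
            · have : (M : ℤ) * h i j < M * S := mul_lt_mul_of_pos_left h2.2 hMZ
              linarith
          · show Function.Injective (nv (fun j => (M : ℤ) * h i j))
            rw [hnv]
            intro j j' hjj
            exact (hh.2.1 i).1 (mul_left_cancel₀ hMZ.ne' hjj)
          · show X ^ (6 / 7 : ℝ) ≤ clu (c * ff X) X 4 1 K q b (Set.range (nv (fun j => (M : ℤ) * h i j)))
            refine (hh.2.1 i).2.trans ?_
            rw [Nat.cast_le, hnv]
            unfold clu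
            apply Set.ncard_le_ncard _ (clu_finite _ _ _ _ _ _ _ _)
            rintro n ⟨h1, h2, h3, h4, h5⟩
            refine ⟨h1, h2, h3, ?_, h5⟩
            rintro _ ⟨j, rfl⟩
            have h6 := h4 _ ⟨j, rfl⟩
            rw [Nat.cast_one, one_mul]
            exact h6
          · show ∑ i, a i * ((M : ℤ) * h i j) = v j
            have h1 : ∀ i, a i * ((M : ℤ) * h i j) = M * (a i * h i j) := fun i => by ring
            rw [sum_congr rfl (fun i _ => h1 i), ← mul_sum, hh.2.2 j]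
            exact hvM j
        · intro h _ h' _ hhh
          funext i j
          have h2 : (M : ℤ) * h i j = M * h' i j := congrFun (congrFun hhh i) j
          exact mul_left_cancel₀ hMZ.ne' h2

end Pool.Agent.N646.RW
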