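import Pool.Agent.N688.FB.RecA

/-!
Clusters of primes in record windows: the hitting property with a constant `lam` which does not depend on the
modulus `q` (the proof is that of `Pool.Agent.N688.FB.rec_hit`, helper688).
-/

set_option autoImplicit false
set_option maxHeartbeats 4000000

namespace Pool.Agent.N646.RW

open Finset Filter
open Pool.Agent.H312R2.RG (ev_ff)
open Pool.Agent.H256R2.SC (ff)
open Pool.Agent.H362R2.RQ (fib)
open Pool.Agent.N646.AC
open Pool.Agent.N688.FB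

open Classical in
theorem rec_hitA : ∃ lam : ℝ, 1 ≤ lam ∧ ∀ q : ℕ, Squarefree q → ∃ Kf : ℕ → ℕ, ∀ M₁ : ℕ,
    ∃ M K : ℕ, 1 ≤ M ∧ q ∣ M ∧ ∃ c : ℝ, 0 < c ∧
    ∀ a : ℕ, a.Coprime q → ∀ᶠ X : ℝ in atTop, ∀ H : ℕ, M * H ≤ c * ff X →
      Hit lam Kf M₁ (Ico 0 (H : ℤ))
        (fun F => X ^ (6 / 7 : ℝ) ≤ clu (2 * (c * ff X)) X 3 M K q a (F : Set ℤ)) := by
  obtain ⟨η, hη, hT⟩ := Pool.Agent.TH101.RG.tuple_multiples
  refine ⟨max (1 / η) 1, le_max_right _ _, fun q hq => ?_⟩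
  -- the numbers of the shifts
  have hT' : ∀ m : ℕ, ∃ K : ℕ, m ≤ K ∧ (1 ≤ m → ∃ c : ℝ, 0 < c ∧ ∀ᶠ X : ℝ in atTop,
    ∀ t : Fin K → ℕ, Function.Injective t → (∀ j, (t j : ℝ) ≤ (Real.log X) ^ 2) →
    (∀ p : ℕ, p.Prime → ∃ v : ℕ, ∀ j, ¬ p ∣ v + t j) →
    ∀ h : ℕ, (∀ j, (h + t j).Coprime q) →
    ∀ col : Fin K → Fin m, (∀ e, K ≤ 2 * m * fib col e) →
    ∀ bad : Finset ℕ, (bad.card : ℝ) ≤ X ^ (7 / 8 : ℝ) →
    ∃ n : ℕ, X < n ∧ (n : ℝ) ≤ 3 * X ∧ n ∉ bad ∧ n ≡ h [MOD q] ∧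
      (∃ E : Finset (Fin m), η * m ≤ E.card ∧ ∀ e ∈ E, ∃ j, col j = e ∧ (n + t j).Prime) ∧
      ∀ p : ℕ, p.Prime → |(p : ℝ) - n| ≤ c * ff X → ∃ l, p = n + t l) := by
    intro m
    rcases Nat.eq_zero_or_pos m with hm | hm
    · exact ⟨m, le_rfl, fun h => by omega⟩
    obtain ⟨K, hmK, hK⟩ := hT m hm
    refine ⟨K, hmK, fun _ => ?_⟩
    obtain ⟨c, hc, hev⟩ := hK 1 1 1 q hq
    refine ⟨c, hc, ?_⟩
    filter_upwards [hev, eventually_ge_atTop 2, Real.tendsto_log_atTop.eventually_ge_atTop 1]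
      with X hX hX2 hlog
    intro t h1 h2 h3 h h4 col h5 bad h6
    obtain ⟨n, g1, g2, g3, g4, g5, g6⟩ := hX 1 0 one_ne_zero (by
      rw [Int.cast_one, abs_one, pow_one]
      exact hlog) (by simp) (by
      rw [Int.cast_zero, abs_zero]
      positivity) t h1 h2 h3 h h4 col h5 bad h6
    refine ⟨n, g1, g2, g3, g4, g5, fun p hp hpn => ?_⟩
    refine g6 1 1 (by norm_num) (by norm_num) (by norm_num) (by norm_num) p hp ?_
    have e : ((1 * p - 1 * (1 * n + 0) : ℤ) : ℝ) = (p : ℝ) - n := by push_cast; ring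
    rw [e]
    exact hpn
  choose Kf hKf1 hKf2 using hT'
  refine ⟨Kf, fun M₁ => ?_⟩
  set K₀ : ℕ := ∑ m ∈ Finset.range (M₁ + 1), Kf m with hK₀
  have hK₀m : ∀ m, m ≤ M₁ → Kf m ≤ K₀ := fun m hm =>
    single_le_sum (f := fun m => Kf m) (fun _ _ => Nat.zero_le _) (Finset.mem_range.2 (by omega))
  have hcc : ∃ c : ℝ, 0 < c ∧ ∀ m (h : 1 ≤ m), m ≤ M₁ → c ≤ (hKf2 m h).choose := by
    set cs : ℕ → ℝ := fun m => if h : 1 ≤ m then (hKf2 m h).choose else 1 with hcs
    have hcs0 : ∀ m, 0 < cs m := by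
      intro m
      rw [hcs]
      dsimp only
      split_ifs with h
      · exact (hKf2 m h).choose_spec.1
      · exact one_pos
    refine ⟨(Finset.range (M₁ + 1)).inf' ⟨0, by simp⟩ cs, ?_, ?_⟩
    · exact (Finset.lt_inf'_iff _).2 fun m _ => hcs0 m
    · intro m h hm
      have h1 := Finset.inf'_le cs (Finset.mem_range.2 (by omega : m < M₁ + 1))
      refine h1.trans (le_of_eq ?_)
      rw [hcs]
      dsimp only
      rw [dif_pos h]
  obtain ⟨c, hc, hcm⟩ := hcc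
  have hq0 : q ≠ 0 := hq.ne_zero
  set M : ℕ := K₀.factorial * q with hM
  have hM1 : 1 ≤ M := Nat.mul_pos (Nat.factorial_pos K₀) (Nat.pos_of_ne_zero hq0)
  refine ⟨M, K₀, hM1, Dvd.intro_left _ rfl, c / 2, by positivity, fun a ha => ?_⟩
  have hpow : ∀ᶠ X : ℝ in atTop, ∀ m ≤ M₁, ((2 : ℝ) ^ m * (Kf m : ℝ) ^ m) * X ^ (6 / 7 : ℝ) ≤
      X ^ (7 / 8 : ℝ) := by
    have h1 : ∀ᶠ X : ℝ in atTop, ∀ m ∈ Finset.range (M₁ + 1),
        ((2 : ℝ) ^ m * (Kf m : ℝ) ^ m) ≤ X ^ (1 / 56 : ℝ) := by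
      rw [Filter.eventually_all_finset]
      intro m _
      exact (tendsto_rpow_atTop (by norm_num)).eventually_ge_atTop _
    filter_upwards [h1, eventually_gt_atTop 0] with X h1 hX m hm
    have e : X ^ (7 / 8 : ℝ) = X ^ (1 / 56 : ℝ) * X ^ (6 / 7 : ℝ) := by
      rw [← Real.rpow_add hX]
      norm_num
    rw [e]
    exact mul_le_mul_of_nonneg_right (h1 m (Finset.mem_range.2 (by omega))) (by positivity)
  have hevall : ∀ᶠ X : ℝ in atTop, ∀ m (h : 1 ≤ m), m ≤ M₁ →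
      ∀ t : Fin (Kf m) → ℕ, Function.Injective t → (∀ j, (t j : ℝ) ≤ (Real.log X) ^ 2) →
    (∀ p : ℕ, p.Prime → ∃ v : ℕ, ∀ j, ¬ p ∣ v + t j) →
    ∀ h : ℕ, (∀ j, (h + t j).Coprime q) →
    ∀ col : Fin (Kf m) → Fin m, (∀ e, Kf m ≤ 2 * m * fib col e) →
    ∀ bad : Finset ℕ, (bad.card : ℝ) ≤ X ^ (7 / 8 : ℝ) →
    ∃ n : ℕ, X < n ∧ (n : ℝ) ≤ 3 * X ∧ n ∉ bad ∧ n ≡ h [MOD q] ∧
      (∃ E : Finset (Fin m), η * m ≤ E.card ∧ ∀ e ∈ E, ∃ j, col j = e ∧ (n + t j).Prime) ∧
      ∀ p : ℕ, p.Prime → |(p : ℝ) - n| ≤ c * ff X → ∃ l, p = n + t l := by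
    have h1 : ∀ᶠ X : ℝ in atTop, ∀ m ∈ Finset.range (M₁ + 1), ∀ (h : 1 ≤ m),
      ∀ t : Fin (Kf m) → ℕ, Function.Injective t → (∀ j, (t j : ℝ) ≤ (Real.log X) ^ 2) →
    (∀ p : ℕ, p.Prime → ∃ v : ℕ, ∀ j, ¬ p ∣ v + t j) →
    ∀ h : ℕ, (∀ j, (h + t j).Coprime q) →
    ∀ col : Fin (Kf m) → Fin m, (∀ e, Kf m ≤ 2 * m * fib col e) →
    ∀ bad : Finset ℕ, (bad.card : ℝ) ≤ X ^ (7 / 8 : ℝ) →
    ∃ n : ℕ, X < n ∧ (n : ℝ) ≤ 3 * X ∧ n ∉ bad ∧ n ≡ h [MOD q] ∧
      (∃ E : Finset (Fin m), η * m ≤ E.card ∧ ∀ e ∈ E, ∃ j, col j = e ∧ (n + t j).Prime) ∧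
      ∀ p : ℕ, p.Prime → |(p : ℝ) - n| ≤ c * ff X → ∃ l, p = n + t l := by
      rw [Filter.eventually_all_finset]
      intro m hm
      by_cases h : 1 ≤ m
      · filter_upwards [(hKf2 m h).choose_spec.2, ev_ff 1 one_pos] with X hX hff _
        intro t h1 h2 h3 h' h4 col h5 bad h6
        obtain ⟨n, g1, g2, g3, g4, g5, g6⟩ := hX t h1 h2 h3 h' h4 col h5 bad h6
        refine ⟨n, g1, g2, g3, g4, g5, fun p hp hpn => g6 p hp (hpn.trans ?_)⟩
        exact mul_le_mul_of_nonneg_right (hcm m h (by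
          have := Finset.mem_range.1 hm
          omega)) hff.2.1
      · exact Filter.Eventually.of_forall fun X h' => absurd h' h
    filter_upwards [h1] with X hX m h hm
    exact hX m (Finset.mem_range.2 (by omega)) h
  filter_upwards [hevall, ev_ff c hc, hpow, eventually_ge_atTop 2] with X hX hff hpow hX2
  intro H hH
  obtain ⟨hff1, hff2, hff3⟩ := hff
  intro m hm1 hmM F hF hFinj
  -- the elements and the colours
  have hK0 : ∀ i : Fin (Kf m), i.val / m < Kf m := fun i =>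
    lt_of_le_of_lt (Nat.div_le_self _ _) i.2
  set cl₁ : Fin (Kf m) → Fin m := fun i => ⟨i.val % m, Nat.mod_lt _ (by omega)⟩ with hcl₁
  set pos : Fin (Kf m) → Fin (Kf m) := fun i => ⟨i.val / m, hK0 i⟩ with hpos
  have hbal : ∀ e, Kf m ≤ 2 * m * fib cl₁ e := by
    intro e
    have h1 : Kf m / m ≤ fib cl₁ e := by
      unfold fib
      have h2 : (univ.image (fun s : Fin (Kf m / m) => (⟨e.val + m * s.val, by
          have h3 := s.2
          have h4 := e.2
          have h5 : m * (Kf m / m) ≤ Kf m := Nat.mul_div_le (Kf m) m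
          have h6 : m * (s.val + 1) ≤ m * (Kf m / m) := Nat.mul_le_mul_left m h3
          rw [Nat.mul_add, Nat.mul_one] at h6
          omega⟩ : Fin (Kf m)))) ⊆ univ.filter (fun i : Fin (Kf m) => cl₁ i = e) := by
        intro i hi
        obtain ⟨s, _, rfl⟩ := mem_image.1 hi
        rw [mem_filter]
        refine ⟨mem_univ _, ?_⟩
        apply Fin.ext
        simp only [hcl₁, Nat.add_mul_mod_self_left]
        exact Nat.mod_eq_of_lt e.2
      have h3 := card_le_card h2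
      rw [card_image_of_injective _ (by
        intro s s' hss
        have h4 := congrArg Fin.val hss
        simp only at h4
        apply Fin.ext
        have h5 : m * s.val = m * s'.val := by omega
        exact Nat.eq_of_mul_eq_mul_left (by omega) h5), card_univ, Fintype.card_fin] at h3
      exact h3
    have h2 : Kf m < m * (Kf m / m + 1) := Nat.lt_mul_div_succ (Kf m) (show 0 < m by omega)
    have h3 : 1 ≤ Kf m / m := (Nat.one_le_div_iff (by omega)).2 (hKf1 m)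
    have h4 : m * (Kf m / m) ≤ m * fib cl₁ e := Nat.mul_le_mul_left m h1
    have h5 : m ≤ m * (Kf m / m) := Nat.le_mul_of_pos_right m (by omega)
    rw [Nat.mul_add, Nat.mul_one] at h2
    have h6 : 2 * m * fib cl₁ e = 2 * (m * fib cl₁ e) := by ring
    rw [h6]
    omega
  set u : Fin (Kf m) → ℤ := fun i => F (cl₁ i) (pos i) with hu
  have huinj : Function.Injective u := by
    intro i j hij
    have h1 := hFinj (a₁ := (cl₁ i, pos i)) (a₂ := (cl₁ j, pos j)) hij
    rw [Prod.mk.injEq] at h1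
    have h2 := congrArg Fin.val h1.1
    have h3 := congrArg Fin.val h1.2
    simp only [hcl₁, hpos] at h2 h3
    apply Fin.ext
    rw [← Nat.div_add_mod i.val m, ← Nat.div_add_mod j.val m, h2, h3]
  have hu0 : ∀ j, 0 ≤ u j ∧ u j < H := fun j => mem_Ico.1 (hF _ _)
  set t : Fin (Kf m) → ℕ := fun j => M * (u j).toNat with ht
  have htz : ∀ j, (t j : ℤ) = M * u j := by
    intro j
    rw [ht]
    push_cast
    rw [Int.toNat_of_nonneg (hu0 j).1]
  have htinj : Function.Injective t := by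
    intro i j hij
    apply huinj
    have h1 : (M : ℤ) * u i = M * u j := by rw [← htz, ← htz, hij]
    exact mul_left_cancel₀ (by exact_mod_cast (by omega : M ≠ 0)) h1
  have htX : ∀ j, (t j : ℝ) ≤ Real.log X ^ 2 := by
    intro j
    have h1 : (t j : ℤ) ≤ M * H := by
      rw [htz]
      exact mul_le_mul_of_nonneg_left (hu0 j).2.le (by positivity)
    have h2 : (t j : ℝ) ≤ M * H := by exact_mod_cast h1
    have h3 : 0 ≤ c * ff X := by positivity
    linarith
  -- the exceptional integers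
  by_contra hcon
  push Not at hcon
  set Ch : Finset (Finset (Fin m) × (Fin m → Fin (Kf m))) := univ with hCh
  set bd : Finset (Fin m) × (Fin m → Fin (Kf m)) → Finset ℕ := fun σ =>
    if ((m : ℝ) ≤ max (1 / η) 1 * (σ.1.card : ℝ)) then
      (clu_finite (2 * (c / 2 * ff X)) X 3 M K₀ q a
        (((σ.1.image (fun g => F g (σ.2 g)) : Finset ℤ)) : Set ℤ)).toFinset else ∅ with hbd
  have hbdc : ∀ σ ∈ Ch, ((bd σ).card : ℝ) ≤ X ^ (6 / 7 : ℝ) := by
    intro σ _
    by_cases hσ : (m : ℝ) ≤ max (1 / η) 1 * (σ.1.card : ℝ)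
    · have h1 := hcon σ.1 σ.2 hσ
      rw [hbd]
      dsimp only
      rw [if_pos hσ]
      refine le_trans (le_of_eq ?_) h1.le
      unfold clu
      rw [Set.ncard_eq_toFinset_card _ (clu_finite _ _ _ _ _ _ _ _)]
    · rw [hbd]
      dsimp only
      rw [if_neg hσ, card_empty, Nat.cast_zero]
      positivity
  set bad : Finset ℕ := Ch.biUnion bd with hbad
  have hbadc : (bad.card : ℝ) ≤ X ^ (7 / 8 : ℝ) := by
    calc (bad.card : ℝ) ≤ ∑ σ ∈ Ch, ((bd σ).card : ℝ) := by exact_mod_cast card_biUnion_le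
      _ ≤ ∑ _σ ∈ Ch, X ^ (6 / 7 : ℝ) := sum_le_sum hbdc
      _ = Ch.card * X ^ (6 / 7 : ℝ) := by rw [sum_const, nsmul_eq_mul]
      _ = (2 : ℝ) ^ m * (Kf m : ℝ) ^ m * X ^ (6 / 7 : ℝ) := by
          congr 1
          rw [hCh, card_univ, Fintype.card_prod, Fintype.card_finset, Fintype.card_fun,
            Fintype.card_fin, Fintype.card_fin]
          push_cast
          rfl
      _ ≤ _ := hpow m hmM
  obtain ⟨n, hn1, hn2, hn3, hn4, ⟨E, hE1, hE2⟩, hn5⟩ := hX m hm1 hmM t htinj htX (by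
      intro p hp
      by_cases hpK : p ≤ Kf m
      · refine ⟨1, fun j hj => ?_⟩
        have h1 : p ∣ t j := by
          have h2 : p ∣ M := (Nat.dvd_factorial hp.pos (hpK.trans (hK₀m m hmM))).mul_right q
          exact h2.mul_right _
        have h2 : p ∣ 1 := (Nat.dvd_add_left h1).1 hj
        exact hp.one_lt.ne' (Nat.dvd_one.1 h2)
      · by_contra hall
        push Not at hall
        have h1 : ∀ v : Fin p, ∃ j, p ∣ v.val + t j := fun v => hall v
        choose g hg using h1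
        have h2 : Function.Injective g := by
          intro v w hvw
          have h3 := hg v
          have h4 := hg w
          rw [hvw] at h3
          have h5 : v.val + t (g w) ≡ w.val + t (g w) [MOD p] :=
            ((Nat.modEq_zero_iff_dvd).2 h3).trans ((Nat.modEq_zero_iff_dvd).2 h4).symm
          have h6 := Nat.ModEq.add_right_cancel' _ h5
          have h7 := Nat.ModEq.eq_of_lt_of_lt h6 v.2 w.2
          exact Fin.ext h7
        have h3 := Fintype.card_le_of_injective g h2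
        rw [Fintype.card_fin, Fintype.card_fin] at h3
        exact hpK h3) a (by
      intro j
      have h1 : q ∣ t j := (Dvd.intro_left _ rfl : q ∣ M).mul_right _
      obtain ⟨w, hw⟩ := h1
      rw [hw]
      exact (Nat.coprime_add_mul_left_left a q w).2 ha) cl₁ hbal bad hbadc
  -- the choice
  have hm0 : 0 < Kf m := lt_of_lt_of_le (by omega) (hKf1 m)
  set ch : Fin m → Fin (Kf m) := fun e => if h : e ∈ E then pos (hE2 e h).choose else ⟨0, hm0⟩ with hch
  have hEm : (m : ℝ) ≤ max (1 / η) 1 * (E.card : ℝ) := by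
    have h1 : (m : ℝ) ≤ 1 / η * E.card := by
      rw [one_div, inv_mul_eq_div, le_div_iff₀ hη]
      linarith
    refine h1.trans ?_
    exact mul_le_mul_of_nonneg_right (le_max_left _ _) (Nat.cast_nonneg _)
  apply hn3
  rw [hbad, mem_biUnion]
  refine ⟨(E, ch), mem_univ _, ?_⟩
  rw [hbd]
  dsimp only
  rw [if_pos hEm, Set.Finite.mem_toFinset]
  refine ⟨hn1, hn2, hn4, ?_, ?_⟩
  · intro h hh
    rw [mem_coe, mem_image] at hh
    obtain ⟨e, he, rfl⟩ := hh
    obtain ⟨g1, g2⟩ := (hE2 e he).choose_spec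
    have e1 : F e (ch e) = u (hE2 e he).choose := by
      rw [hch]
      dsimp only
      rw [dif_pos he, hu]
      dsimp only
      rw [g1]
    rw [e1]
    have e2 : (n : ℤ) + M * u (hE2 e he).choose = ((n + t (hE2 e he).choose : ℕ) : ℤ) := by
      push_cast
      rw [htz]
    rw [e2, Int.toNat_natCast]
    exact g2
  · refine le_trans (Set.ncard_le_ncard (t := ((univ : Finset (Fin (Kf m))).image (fun l => n + t l) :
        Set ℕ)) ?_ (Set.toFinite _)) ?_
    · rintro p ⟨hp1, hp2⟩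
      obtain ⟨l, hl⟩ := hn5 p hp1 (by
        refine hp2.trans (le_of_eq ?_)
        ring)
      rw [mem_coe, mem_image]
      exact ⟨l, mem_univ _, hl.symm⟩
    · rw [Set.ncard_coe_finset]
      refine card_image_le.trans ?_
      rw [card_univ, Fintype.card_fin]
      exact hK₀m m hmM


end Pool.Agent.N646.RW
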